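import Pool.Agent.Run7.h985.TC.Phan
import Pool.Agent.Run7.h617.TC.CRU
import Pool.Agent.Run7.h441.TC.CR2
import Pool.Agent.Run7.h824.TC.W2
import Pool.Agent.Run7.h675.TC.W3

/-!
# Conservativity is nilpotence of extension classes

Let `C` be a rigid tensor triangulated category (geometric motives over the complex numbers with
rational coefficients), and let `R` be a realisation with values in vector spaces over a field of
characteristic zero (the Betti realization); `R` is conservative if it detects zero. The following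
are equivalent.

1. `R` is conservative.
2. For every object `P` with cohomology only in degree `-1`, every morphism `q : 𝟙 ⟶ P` is
   nilpotent for the tensor product: `q ⊗ ⋯ ⊗ q = 0` for a large number of factors.
3. For every triangle `F ⟶ 𝟙 ⟶ P ⟶ F⟦1⟧` with `F` in degree zero and `R(F ⟶ 𝟙)` nonzero, the
   morphism `𝟙 ⟶ P` is nilpotent.

So conservativity is a nilpotence statement of the type of the conjecture of Voevodsky, for the
classes of extensions `K ⟶ F ⟶ 𝟙` of objects in degree zero instead of algebraic cycles.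
-/

set_option autoImplicit false

open CategoryTheory Limits MonoidalCategory Pretriangulated Triangulated

universe v u w

namespace Run7.h985.Kept.NilpotentExtensions

open Pool.Agent.Y116.MT Pool.Agent.V1178.MT Run7.h822.MT Run7.h985.Crit

/-- Conservativity and nilpotence are equivalent. -/
theorem result {C : Type u} [Category.{v} C] [Preadditive C] [HasZeroObject C] [HasShift C ℤ]
    [∀ n : ℤ, (shiftFunctor C n).Additive] [Pretriangulated C] [IsTriangulated C]
    [MonoidalCategory C] [SymmetricCategory C] [TensorTriangulated C] [MonoidalPreadditive C]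
    [RightRigidCategory C] {E : Type w} [Field E] [CharZero E] (R : Realisation C E) :
    List.TFAE [Conservative R,
      ∀ (P : C) (q : 𝟙_ C ⟶ P), R.Deg P (-1) → ∃ n : ℕ, qpow q n = 0,
      ∀ (F P : C) (v : F ⟶ 𝟙_ C) (q : 𝟙_ C ⟶ P) (w : P ⟶ F⟦(1 : ℤ)⟧),
        Triangle.mk v q w ∈ distTriang C → R.Deg F 0 → R.H.map v ≠ 0 →
          ∃ n : ℕ, qpow q n = 0] := by
  have hq : ∀ {P : C} (q : 𝟙_ C ⟶ P) (n : ℕ), qpow q n = 0 ↔ Run7.h985.TC.qp q n = 0 := by
    intro P q n
    obtain ⟨e, he⟩ := qpow_iso q n
    rw [← he]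
    constructor
    · intro h0
      rw [← cancel_mono e.hom, h0, zero_comp]
    · intro h0
      rw [h0, zero_comp]
  tfae_have 1 → 2 := by
    intro hc P q hP
    obtain ⟨n, hn⟩ := Run7.h617.TC.t_NILC.{v, u, w} C E R hc P q hP
    exact ⟨n, (hq q n).2 hn⟩
  tfae_have 2 → 3 := by
    intro h F P v q w hT hF hv
    obtain ⟨e, he⟩ := Pool.Agent.Run7.h642.TC.exists_sec v hv
    exact h P q (Run7.h237.TC.deg_third hF (epi_of_epi_fac he) hT)
  tfae_have 3 → 1 := by
    intro h
    refine Run7.h985.Phan.cons_of_nil Run7.h663.TC.t_DUAL ?_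
    intro P q hP
    obtain ⟨F, v, w, hT⟩ := distinguished_cocone_triangle₁ q
    have hF : R.Deg F 0 := by
      intro i hi
      exact hz1 R.H hT i (deg_unit i hi) (hP (i - 1) (by omega))
    have hv : R.H.map v ≠ 0 := by
      intro h0
      have h1 : Epi (R.H.map (v⟦(0 : ℤ)⟧')) := hepi1 R.H hT 0 (hP 0 (by omega))
      have h2 : R.H.map (v⟦(0 : ℤ)⟧') = 0 := by
        have h3 := (shiftFunctorZero C ℤ).hom.naturality v
        rw [← cancel_mono (R.H.map ((shiftFunctorZero C ℤ).hom.app (𝟙_ C))), ← Functor.map_comp,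
          h3, Functor.map_comp]
        change _ ≫ R.H.map v = _
        rw [h0, comp_zero, zero_comp]
      have h4 : IsZero (R.H.obj ((𝟙_ C)⟦(0 : ℤ)⟧)) := by
        rw [IsZero.iff_id_eq_zero, ← cancel_epi (R.H.map (v⟦(0 : ℤ)⟧')), h2, zero_comp, zero_comp]
      exact not_isZero_H_unit R (Pool.Agent.Run7.h642.TC.zero_shift_zero.1 h4)
    obtain ⟨n, hn⟩ := h F P v q w hT hF hv
    exact ⟨n, (hq q n).1 hn⟩
  tfae_finish

end Run7.h985.Kept.NilpotentExtensions
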