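import Pool.Agent.Run7.h822.MT.Exist

/-!
# One prime suffices for the motivic t-structure

Let `C` be the category of constructible motives over a field (or any rigid tensor triangulated
category with an indecomposable unit) and let `R l` be its realisations, with coefficients in
fields of characteristic zero. Suppose that `C` is generated by objects `Q` (for motives: the
`M(X)(m)[2m]` with `X` smooth projective) which satisfy the hard Lefschetz theorem for one `R l₀`
and the Betti numbers of which do not depend on `l`; for motives these are theorems of Deligne.

* A t-structure which is motivic for the single realisation `R l₀` is motivic for all `R l`.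
* A motivic t-structure exists if and only if `R l₀` is conservative and every object `X` has a
  morphism `A ⟶ X` which looks like a truncation in the cohomology `R l₀`. No orthogonality,
  functoriality or compatibility with the tensor product is assumed, and nothing at `l ≠ l₀`.

In positive characteristic there is no comparison between the realisations for different primes.
The proof: by the vanishing of exterior powers, the cohomology `R l` of an object of the heart of
dimension `n` vanishes in odd degrees and has dimension at most `n` in each even degree; the tensor
power trick bounds its total dimension by `n`. For the generators all inequalities are equalities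
by the equality of the Betti numbers, and hard Lefschetz and the second moment of the degrees show
that all cohomology objects of the generators are concentrated in one degree. This property
is inherited by sub and quotient objects, by parity.
-/

set_option autoImplicit false

open CategoryTheory Limits MonoidalCategory Pretriangulated Triangulated

universe v u w

namespace Pool.Agent.Results.MP_6d0ce9_ag.OneRealisationSuffices

open Pool.Agent.Y116.MT Pool.Agent.V1178.MT Run7.h822.MT

/-- (1) A t-structure is motivic for `R l₀` if and only if it is motivic for all `R l`. (2) There is
a motivic t-structure if and only if `R l₀` is conservative and every object has a morphism to it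
which looks like a truncation in the cohomology `R l₀`. -/
theorem result {C : Type u} [Category.{v} C] [Preadditive C] [HasZeroObject C] [HasShift C ℤ]
    [∀ n : ℤ, (shiftFunctor C n).Additive] [Pretriangulated C] [IsTriangulated C]
    [MonoidalCategory C] [SymmetricCategory C] [TensorTriangulated C] [MonoidalPreadditive C]
    [RightRigidCategory C] (hid : ∀ e : 𝟙_ C ⟶ 𝟙_ C, e ≫ e = e → e = 0 ∨ e = 𝟙 _)
    {Λ : Type*} {E : Λ → Type w} [∀ l, Field (E l)] [∀ l, CharZero (E l)]
    (R : ∀ l, Realisation C (E l)) (l₀ : Λ) (Q : ObjectProperty C) (T : C)
    (hQ : PureGenerators Q T R l₀) :
    (∀ t : TStructure C, IsMotivic t (fun _ : Unit => R l₀) ↔ IsMotivic t R) ∧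
    ((∃ t : TStructure C, IsMotivic t R) ↔ Conservative (R l₀) ∧
      ∀ X : C, ∃ (A : C) (f : A ⟶ X), LooksLikeTruncation (R l₀) f) := by
  refine ⟨motivic_iff_one hid R l₀ Q T hQ, ⟨?_, ?_⟩⟩
  · rintro ⟨t, ht⟩
    exact truncations_of_motivic hid ((motivic_iff_one hid R l₀ Q T hQ t).2 ht)
  · rintro ⟨hc, htr⟩
    exact ⟨tOf (R l₀) hc htr, (motivic_iff_one hid R l₀ Q T hQ _).1 (motivic_tOf hc htr)⟩

end Pool.Agent.Results.MP_6d0ce9_ag.OneRealisationSuffices
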